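import Pool.Agent.W516.MTH.Stm

/-!
# Odd zeta values and homogeneous relations
-/

set_option autoImplicit false

namespace Pool.Agent.W177.MTH

open Pool.Agent.W516.MTZ Pool.Agent.W516.MTH

theorem zeta_real {n : ℕ} (hn : 1 < n) : ∃ r : ℝ, riemannZeta n = (r : ℂ) := by
  refine ⟨∑' k : ℕ, 1 / (k : ℝ) ^ n, ?_⟩
  rw [zeta_nat_eq_tsum_of_gt_one hn, Complex.ofReal_tsum]
  congr 1
  funext k
  push_cast
  rfl

theorem pow_imag {n : ℕ} (hn : Odd n) :
    ∃ r : ℝ, ((2 : ℂ) * Real.pi * Complex.I) ^ n = (r : ℂ) * Complex.I := by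
  obtain ⟨k, rfl⟩ := hn
  refine ⟨(2 * Real.pi) ^ (2 * k + 1) * (-1) ^ k, ?_⟩
  rw [mul_pow, pow_succ Complex.I, pow_mul Complex.I, Complex.I_sq]
  push_cast
  ring

theorem T_ZETA : StHZeta := by
  intro m X _ _ _ _ M p hdeg hinj hpt hps n c b hc hsum
  by_contra hne
  obtain ⟨x, hx⟩ := Function.ne_iff.mp hne
  have hx' : c x ≠ 0 := hx
  have hxn : M.deg x = n := hc x hx'
  have hy : ∀ y, y ≠ x → c y = 0 := by
    intro y hyx
    by_contra hcy
    exact hyx (hinj ((hc y hcy).trans hxn.symm))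
  rw [Finset.sum_eq_single x (by
    intro y _ hyx
    rw [hy y hyx]
    simp) (by
    intro hx0
    exact absurd (Finset.mem_univ x) hx0), hps, hpt, ← hxn] at hsum
  obtain ⟨hodd, h3⟩ := hdeg x
  obtain ⟨r, hr⟩ := zeta_real (n := M.deg x) (by omega)
  obtain ⟨s, hs⟩ := pow_imag hodd
  have hz : riemannZeta (M.deg x) ≠ 0 := by
    apply riemannZeta_ne_zero_of_one_lt_re
    simp only [Complex.natCast_re]
    exact_mod_cast (by omega : 1 < M.deg x)
  rw [hr, hs] at hsum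
  have hre := congrArg Complex.re hsum
  have e1 : ((c x : ℂ) * (r : ℂ)).re = (c x : ℝ) * r := by
    have : ((c x : ℂ) * (r : ℂ)) = (((c x : ℝ) * r : ℝ) : ℂ) := by push_cast; rfl
    rw [this, Complex.ofReal_re]
  have e2 : ((b : ℂ) * ((s : ℂ) * Complex.I)).re = 0 := by
    have : ((b : ℂ) * ((s : ℂ) * Complex.I)) = (((b : ℝ) * s : ℝ) : ℂ) * Complex.I := by
      push_cast; ring
    rw [this]
    simp
  rw [e1, e2] at hre
  have hcx : (c x : ℝ) ≠ 0 := by exact_mod_cast hx'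
  rcases mul_eq_zero.mp hre with h | h
  · exact hcx h
  · apply hz
    rw [hr, h]
    simp

end Pool.Agent.W177.MTH
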